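import Pool.Agent.H269.RT.Hard

/-!
# The randomization test problem for matched pairs is PP-complete

`RTMP` is the language of the instances `((x_1, y_1), …, (x_n, y_n)), K` with `K ≤ N`. It belongs
to `PP`; it is hard for `PP` under polynomial-time many-one reductions; it belongs to `NP` if and
only if `NP = PP`; and if it belongs to `NP` then `NP` is closed under complements.
-/

set_option autoImplicit false

namespace Pool.Agent.Results.MP_a7edd4_lc.PPComplete

open Pool.Agent.NPC Pool.Agent.NPC.Med Pool.Agent.H269.RT

theorem result :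
    InPPc (lang RTMP) ∧
    (∀ L : Set (List Bool), InPPc L → Reduces L (lang RTMP)) ∧
    (InNP (lang RTMP) ↔ ∀ L : Set (List Bool), InPPc L ↔ InNP L) ∧
    (InNP (lang RTMP) → ∀ L : Set (List Bool), InNP L → InNP Lᶜ) :=
  ⟨RT269.rtmp_inPP, fun _ hL => RT269.rtmp_hard' hL, RT269.rtmp_iff,
    fun h _ hL => RT269.rtmp_conp h hL⟩

end Pool.Agent.Results.MP_a7edd4_lc.PPComplete
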